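import Mathlib

set_option autoImplicit false
open Finset

namespace Pool.Agent.X21.Surplus

/-- abundancy `h(n) = σ(n)/n` -/
noncomputable def h (n : ℕ) : ℝ := (∑ d ∈ n.divisors, (d:ℝ)) / n

/-- `H(n) = ∏_{p ∣ n} p/(p-1)` -/
noncomputable def H (n : ℕ) : ℝ := ∏ p ∈ n.primeFactors, ((p:ℝ) / ((p:ℝ) - 1))

/-- the surplus `S(n) = H(n) - 2` -/
noncomputable def S (n : ℕ) : ℝ := H n - 2

/-- `g(n) = S(n) √n` -/
noncomputable def g (n : ℕ) : ℝ := S n * Real.sqrt n

/-- `n` is non-deficient: `n ≥ 1` and `σ(n) ≥ 2n` -/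
def NonDeficient (n : ℕ) : Prop := 0 < n ∧ 2 * n ≤ ∑ d ∈ n.divisors, d

/-- the odd non-deficient record setters for `g` -/
def B1 : Set ℕ := {n | Odd n ∧ NonDeficient n ∧ ∀ k : ℕ, k < n → Odd k → NonDeficient k → g k < g n}

/-- the elements of `B1` in increasing order (indexed from `0`) -/
noncomputable def b (j : ℕ) : ℕ := Nat.nth (fun n => n ∈ B1) j

/-! ### basic facts -/

lemma prime_factor_ge_one {p : ℕ} (hp : p.Prime) : (1:ℝ) ≤ (p:ℝ) / ((p:ℝ) - 1) := by
  have h2 : (2:ℝ) ≤ p := by exact_mod_cast hp.two_le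
  rw [le_div_iff₀ (by linarith)]; linarith

lemma prod_mono {s t : Finset ℕ} (f : ℕ → ℝ) (hst : s ⊆ t) (h1 : ∀ i ∈ t, 1 ≤ f i) :
    ∏ i ∈ s, f i ≤ ∏ i ∈ t, f i := by
  classical
  rw [← Finset.prod_sdiff hst]
  have h2 : 1 ≤ ∏ i ∈ t \ s, f i := by
    have : ∀ u : Finset ℕ, (∀ i ∈ u, 1 ≤ f i) → 1 ≤ ∏ i ∈ u, f i := by
      intro u
      induction u using Finset.induction_on with
      | empty => simp
      | insert a u ha ih =>
        intro hu
        rw [Finset.prod_insert ha]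
        have e1 := hu a (Finset.mem_insert_self a u)
        have e2 := ih (fun i hi => hu i (Finset.mem_insert_of_mem hi))
        nlinarith
    exact this _ (fun i hi => h1 i (Finset.mem_sdiff.1 hi).1)
  have h3 : 0 ≤ ∏ i ∈ s, f i := Finset.prod_nonneg (fun i hi => le_trans zero_le_one (h1 i (hst hi)))
  nlinarith

lemma one_sub_sum_le_prod {ι : Type*} (s : Finset ι) (f : ι → ℝ) (h0 : ∀ i ∈ s, 0 ≤ f i)
    (h1 : ∀ i ∈ s, f i ≤ 1) : 1 - ∑ i ∈ s, f i ≤ ∏ i ∈ s, (1 - f i) := by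
  classical
  induction s using Finset.induction_on with
  | empty => simp
  | insert a s ha ih =>
    rw [Finset.sum_insert ha, Finset.prod_insert ha]
    have ih' := ih (fun i hi => h0 i (Finset.mem_insert_of_mem hi))
      (fun i hi => h1 i (Finset.mem_insert_of_mem hi))
    have ha0 := h0 a (Finset.mem_insert_self a s)
    have ha1 := h1 a (Finset.mem_insert_self a s)
    have hs : 0 ≤ ∑ i ∈ s, f i := Finset.sum_nonneg (fun i hi => h0 i (Finset.mem_insert_of_mem hi))
    have : (1 - f a) * (1 - ∑ i ∈ s, f i) ≤ (1 - f a) * ∏ i ∈ s, (1 - f i) :=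
      mul_le_mul_of_nonneg_left ih' (by linarith)
    nlinarith [mul_nonneg ha0 hs]

lemma H_pos (n : ℕ) : 0 < H n := by
  apply Finset.prod_pos
  intro p hp
  have := prime_factor_ge_one (Nat.prime_of_mem_primeFactors hp)
  linarith

lemma H_mono {m n : ℕ} (hmn : m ∣ n) (hn : n ≠ 0) : H m ≤ H n := by
  apply prod_mono _ (Nat.primeFactors_mono hmn hn)
  intro i hi
  exact prime_factor_ge_one (Nat.prime_of_mem_primeFactors hi)

/-- `h(n) ≥ ∏_{p ∣ n} (1 + 1/p)` -/
lemma h_ge_prod {n : ℕ} (hn : n ≠ 0) : ∏ p ∈ n.primeFactors, (1 + (p:ℝ)⁻¹) ≤ h n := by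
  unfold h
  have h1 : (∑ d ∈ n.divisors, (d:ℝ)) = ∏ p ∈ n.primeFactors, ∑ k ∈ Finset.range (n.factorization p + 1), (p:ℝ) ^ k := by
    have := Nat.sum_divisors hn
    have h2 := congrArg (Nat.cast : ℕ → ℝ) this
    push_cast at h2
    exact h2
  have h2 : (n:ℝ) = ∏ p ∈ n.primeFactors, (p:ℝ) ^ (n.factorization p) := by
    have := Nat.prod_factorization_pow_eq_self hn
    rw [Finsupp.prod, Nat.support_factorization] at this
    have h3 := congrArg (Nat.cast : ℕ → ℝ) this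
    push_cast at h3
    exact h3.symm
  rw [h1]
  conv_rhs => rw [h2]
  rw [← Finset.prod_div_distrib]
  apply Finset.prod_le_prod
  · intro p _; positivity
  · intro p hp
    have hpp := Nat.prime_of_mem_primeFactors hp
    have hp0 : (0:ℝ) < p := by exact_mod_cast hpp.pos
    have ha : 1 ≤ n.factorization p :=
      (hpp.dvd_iff_one_le_factorization hn).1 (Nat.dvd_of_mem_primeFactors hp)
    rw [le_div_iff₀ (by positivity)]
    obtain ⟨a, ha'⟩ : ∃ a, n.factorization p = a + 1 := ⟨n.factorization p - 1, by omega⟩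
    rw [ha', Finset.sum_range_succ, Finset.sum_range_succ]
    have : 0 ≤ ∑ k ∈ Finset.range a, (p:ℝ)^k := Finset.sum_nonneg (fun _ _ => by positivity)
    have e : (1 + (p:ℝ)⁻¹) * (p:ℝ)^(a+1) = p^a + p^(a+1) := by
      rw [pow_succ]; field_simp; ring
    rw [e]; linarith

/-- for odd `n`, `h(n) ≥ H(n)/2` -/
lemma h_ge_half_H {n : ℕ} (hodd : Odd n) : H n / 2 ≤ h n := by
  have hn : n ≠ 0 := by rintro rfl; simp at hodd
  refine le_trans ?_ (h_ge_prod hn)
  have key : ∀ p ∈ n.primeFactors, (1 + (p:ℝ)⁻¹) = ((p:ℝ) / ((p:ℝ) - 1)) * (1 - ((p:ℝ)^2)⁻¹) := by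
    intro p hp
    have hpp := Nat.prime_of_mem_primeFactors hp
    have h2 : (2:ℝ) ≤ p := by exact_mod_cast hpp.two_le
    have h3 : (p:ℝ) - 1 ≠ 0 := by linarith
    field_simp; ring
  rw [Finset.prod_congr rfl key, Finset.prod_mul_distrib]
  have h1 : 1 - ∑ p ∈ n.primeFactors, ((p:ℝ)^2)⁻¹ ≤ ∏ p ∈ n.primeFactors, (1 - ((p:ℝ)^2)⁻¹) := by
    apply one_sub_sum_le_prod
    · intro p _; positivity
    · intro p hp
      have hpp := Nat.prime_of_mem_primeFactors hp
      have h2 : (2:ℝ) ≤ p := by exact_mod_cast hpp.two_le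
      apply inv_le_one_of_one_le₀; nlinarith
  have h2 : ∑ p ∈ n.primeFactors, ((p:ℝ)^2)⁻¹ ≤ 1 / 2 := by
    rcases le_or_gt n 2 with hle | hgt
    · have : n = 1 := by
        have : n ≠ 2 := by rintro rfl; exact absurd hodd (by decide)
        omega
      subst this; simp
    calc ∑ p ∈ n.primeFactors, ((p:ℝ)^2)⁻¹ ≤ ∑ p ∈ Finset.Ioc 2 n, ((p:ℝ)^2)⁻¹ := by
          apply Finset.sum_le_sum_of_subset_of_nonneg
          · intro p hp
            have hpp := Nat.prime_of_mem_primeFactors hp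
            have hd := Nat.dvd_of_mem_primeFactors hp
            rw [Finset.mem_Ioc]
            refine ⟨?_, Nat.le_of_mem_primeFactors hp⟩
            rcases hpp.eq_two_or_odd' with h | h
            · subst h; exact absurd (even_iff_two_dvd.2 hd) (Nat.not_even_iff_odd.2 hodd)
            · have := hpp.two_le
              rcases h with ⟨t, ht⟩; omega
          · intro p _ _; positivity
      _ ≤ ((2:ℕ):ℝ)⁻¹ - (n:ℝ)⁻¹ := sum_Ioc_inv_sq_le_sub (by norm_num) hgt.le
      _ ≤ 1 / 2 := by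
        have : (0:ℝ) ≤ (n:ℝ)⁻¹ := by positivity
        push_cast; linarith
  have h3 := H_pos n
  have h4 : H n * (1/2) ≤ H n * ∏ p ∈ n.primeFactors, (1 - ((p:ℝ)^2)⁻¹) :=
    mul_le_mul_of_nonneg_left (by linarith) h3.le
  unfold H at h4 ⊢
  linarith

lemma nonDeficient_of_h {n : ℕ} (hn : 0 < n) (hh : 2 ≤ h n) : NonDeficient n := by
  refine ⟨hn, ?_⟩
  unfold h at hh
  have hn' : (0:ℝ) < n := by exact_mod_cast hn
  rw [le_div_iff₀ hn'] at hh
  have : ((2 * n : ℕ):ℝ) ≤ ((∑ d ∈ n.divisors, d : ℕ) : ℝ) := by push_cast; exact hh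
  exact_mod_cast this

/-- `h n < H n`-type bound giving positivity of the surplus: `h n ≤ H n`. -/
lemma h_le_H {n : ℕ} (hn : n ≠ 0) : h n ≤ H n := by
  unfold h H
  have h1 : (∑ d ∈ n.divisors, (d:ℝ)) = ∏ p ∈ n.primeFactors, ∑ k ∈ Finset.range (n.factorization p + 1), (p:ℝ) ^ k := by
    have := Nat.sum_divisors hn
    have h2 := congrArg (Nat.cast : ℕ → ℝ) this
    push_cast at h2
    exact h2
  have h2 : (n:ℝ) = ∏ p ∈ n.primeFactors, (p:ℝ) ^ (n.factorization p) := by
    have := Nat.prod_factorization_pow_eq_self hn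
    rw [Finsupp.prod, Nat.support_factorization] at this
    have h3 := congrArg (Nat.cast : ℕ → ℝ) this
    push_cast at h3
    exact h3.symm
  rw [h1]
  conv_lhs => rw [h2]
  rw [← Finset.prod_div_distrib]
  apply Finset.prod_le_prod
  · intro p _; positivity
  · intro p hp
    have hpp := Nat.prime_of_mem_primeFactors hp
    have h2 : (2:ℝ) ≤ p := by exact_mod_cast hpp.two_le
    rw [geom_sum_eq (by linarith)]
    rw [div_div, div_le_div_iff₀ (by apply mul_pos; linarith; positivity) (by linarith)]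
    have h3 : (0:ℝ) < (p:ℝ)^(n.factorization p) := by positivity
    rw [pow_succ]
    have : ((p:ℝ)^(n.factorization p) * p - 1) * (p - 1) ≤ (p:ℝ)^(n.factorization p) * p * (p-1) :=
      mul_le_mul_of_nonneg_right (by linarith) (by linarith)
    linarith

lemma S_nonneg {n : ℕ} (hn : NonDeficient n) : 0 ≤ S n := by
  have h1 := h_le_H hn.1.ne'
  have h2 : 2 ≤ h n := by
    unfold h
    have hn' : (0:ℝ) < n := by exact_mod_cast hn.1
    rw [le_div_iff₀ hn']
    have : ((2 * n : ℕ):ℝ) ≤ ((∑ d ∈ n.divisors, d : ℕ) : ℝ) := by exact_mod_cast hn.2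
    push_cast at this; exact this
  unfold S; linarith

/-! ### odd primorials -/

/-- the odd primes up to `y` -/
def T (y : ℕ) : Finset ℕ := (Finset.range (y+1)).filter (fun p => p.Prime ∧ p ≠ 2)

/-- product of the odd primes up to `y` -/
def P (y : ℕ) : ℕ := ∏ p ∈ T y, p

lemma mem_T {y p : ℕ} : p ∈ T y ↔ p ≤ y ∧ p.Prime ∧ p ≠ 2 := by
  unfold T; rw [Finset.mem_filter, Finset.mem_range]
  constructor
  · rintro ⟨a, b⟩; exact ⟨by omega, b⟩
  · rintro ⟨a, b⟩; exact ⟨by omega, b⟩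

lemma P_pos (y : ℕ) : 0 < P y := Finset.prod_pos (fun p hp => (mem_T.1 hp).2.1.pos)

lemma P_odd (y : ℕ) : Odd (P y) := by
  unfold P
  apply Finset.prod_induction _ Odd
  · intro a b ha hb; exact ha.mul hb
  · exact odd_one
  · intro p hp
    exact (mem_T.1 hp).2.1.odd_of_ne_two (mem_T.1 hp).2.2

lemma primeFactors_P (y : ℕ) : (P y).primeFactors = T y := by
  unfold P
  exact Nat.primeFactors_prod (fun _ hp => (mem_T.1 hp).2.1)

lemma H_P (y : ℕ) : H (P y) = ∏ p ∈ T y, ((p:ℝ) / ((p:ℝ) - 1)) := by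
  unfold H; rw [primeFactors_P]

/-- `H(P y) → ∞` -/
lemma H_P_unbounded (C : ℝ) : ∃ y0 : ℕ, ∀ y, y0 ≤ y → C ≤ H (P y) := by
  have hns := not_summable_one_div_on_primes
  have hex : ∃ y0 : ℕ, C + 1 ≤ ∑ n ∈ Finset.range (y0+1), Set.indicator {p : ℕ | p.Prime} (fun n : ℕ => (1 : ℝ) / n) n := by
    by_contra hcon
    push Not at hcon
    apply hns
    apply summable_of_sum_range_le (c := C + 1)
    · intro n
      apply Set.indicator_nonneg
      intro x _; positivity
    · intro n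
      rcases n with _ | n
      · have := hcon 0
        have h0 : ∑ n ∈ Finset.range (0+1), Set.indicator {p : ℕ | p.Prime} (fun n : ℕ => (1 : ℝ) / n) n = 0 := by
          simp
        rw [h0] at this
        simp; linarith
      · exact (hcon n).le
  obtain ⟨y0, hy0⟩ := hex
  refine ⟨y0, fun y hy => ?_⟩
  have hT : T y0 ⊆ T y := by
    intro p hp
    rw [mem_T] at hp ⊢
    exact ⟨by omega, hp.2⟩
  have h1 : ∏ p ∈ T y0, ((p:ℝ) / ((p:ℝ) - 1)) ≤ H (P y) := by
    rw [H_P]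
    apply prod_mono _ hT
    intro i hi
    exact prime_factor_ge_one (mem_T.1 hi).2.1
  refine le_trans ?_ h1
  -- product ≥ 1 + sum
  have h2 : ∀ s : Finset ℕ, (∀ p ∈ s, p.Prime) → 1 + ∑ p ∈ s, (1:ℝ)/p ≤ ∏ p ∈ s, ((p:ℝ) / ((p:ℝ) - 1)) := by
    intro s
    induction s using Finset.induction_on with
    | empty => simp
    | insert a s ha ih =>
      intro hs
      rw [Finset.sum_insert ha, Finset.prod_insert ha]
      have hap := hs a (Finset.mem_insert_self a s)
      have ih' := ih (fun p hp => hs p (Finset.mem_insert_of_mem hp))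
      have h2 : (2:ℝ) ≤ a := by exact_mod_cast hap.two_le
      have h3 : 1 + (1:ℝ)/a ≤ (a:ℝ) / (a - 1) := by
        rw [le_div_iff₀ (by linarith)]
        have : (1 + (1:ℝ)/a) * (a - 1) = a - 1/a := by field_simp; ring
        rw [this]
        have : (0:ℝ) ≤ 1 / a := by positivity
        linarith
      have h4 : 0 ≤ ∑ p ∈ s, (1:ℝ)/p := Finset.sum_nonneg (fun _ _ => by positivity)
      have h5 : (0:ℝ) ≤ 1 / a := by positivity
      calc 1 + ((1:ℝ)/a + ∑ p ∈ s, (1:ℝ)/p) ≤ (1 + 1/a) * (1 + ∑ p ∈ s, (1:ℝ)/p) := by nlinarith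
        _ ≤ _ := mul_le_mul h3 ih' (by linarith) (by linarith)
  refine le_trans ?_ (h2 (T y0) (fun p hp => (mem_T.1 hp).2.1))
  -- compare sums
  have h3 : ∑ n ∈ Finset.range (y0+1), Set.indicator {p : ℕ | p.Prime} (fun n : ℕ => (1 : ℝ) / n) n
      = ∑ p ∈ (Finset.range (y0+1)).filter Nat.Prime, (1:ℝ)/p := by
    rw [Finset.sum_filter]
    apply Finset.sum_congr rfl
    intro n _
    by_cases hn : n.Prime
    · rw [if_pos hn, Set.indicator_of_mem]; exact hn
    · rw [if_neg hn, Set.indicator_of_notMem]; exact hn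
  rw [h3] at hy0
  have h4 : (Finset.range (y0+1)).filter Nat.Prime ⊆ insert 2 (T y0) := by
    intro p hp
    rw [Finset.mem_filter, Finset.mem_range] at hp
    rw [Finset.mem_insert, mem_T]
    by_cases h : p = 2
    · left; exact h
    · right; exact ⟨by omega, hp.2, h⟩
  have h5 : ∑ p ∈ (Finset.range (y0+1)).filter Nat.Prime, (1:ℝ)/p ≤ ∑ p ∈ insert 2 (T y0), (1:ℝ)/p :=
    Finset.sum_le_sum_of_subset_of_nonneg h4 (fun _ _ _ => by positivity)
  rw [Finset.sum_insert (by rw [mem_T]; tauto)] at h5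
  push_cast at h5
  linarith

/-- an odd multiple of `Q` just below `n` -/
lemma exists_mult {Q n : ℕ} (hQ : Odd Q) (h : Q < n) : ∃ k, Odd k ∧ Q ∣ k ∧ k < n ∧ n ≤ k + 2 * Q ∧ 0 < k := by
  have hQ0 : 0 < Q := by rcases hQ with ⟨t, ht⟩; omega
  set q := (n - 1) / Q with hq
  have h1 : Q * q ≤ n - 1 := Nat.mul_div_le _ _
  have h2 : n - 1 < Q * q + Q := by
    have := Nat.lt_mul_div_succ (n-1) hQ0
    rw [← hq, mul_add, mul_one] at this; exact this
  have h3 : 1 ≤ q := by
    rw [hq]; exact (Nat.le_div_iff_mul_le hQ0).2 (by omega)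
  rcases Nat.even_or_odd q with he | ho
  · refine ⟨Q * (q - 1), hQ.mul ?_, dvd_mul_right _ _, ?_, ?_, ?_⟩
    · rcases he with ⟨t, ht⟩; exact ⟨t - 1, by omega⟩
    · have : Q * (q - 1) ≤ Q * q := Nat.mul_le_mul_left _ (by omega)
      omega
    · have : Q * q = Q * (q - 1) + Q := by
        obtain ⟨r, hr⟩ : ∃ r, q = r + 1 := ⟨q - 1, by omega⟩
        rw [hr]; simp; ring
      omega
    · apply Nat.mul_pos hQ0
      rcases he with ⟨t, ht⟩; omega
  · exact ⟨Q * q, hQ.mul ho, dvd_mul_right _ _, by omega, by omega, Nat.mul_pos hQ0 (by omega)⟩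

lemma nonDeficient_mult {y k : ℕ} (hy : 4 ≤ H (P y)) (hk : Odd k) (hk0 : 0 < k) (hd : P y ∣ k) :
    NonDeficient k := by
  apply nonDeficient_of_h hk0
  have h1 := h_ge_half_H hk
  have h2 := H_mono hd hk0.ne'
  linarith

/-- every odd non-deficient number is dominated by a record not exceeding it -/
lemma rec_ge {e : ℕ} (ho : Odd e) (hn : NonDeficient e) : ∃ m ∈ B1, m ≤ e ∧ g e ≤ g m := by
  classical
  set s := (Finset.range (e+1)).filter (fun k => Odd k ∧ NonDeficient k) with hs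
  have hes : e ∈ s := by rw [hs, Finset.mem_filter, Finset.mem_range]; exact ⟨by omega, ho, hn⟩
  obtain ⟨m0, hm0, hmax⟩ := Finset.exists_max_image s g ⟨e, hes⟩
  -- least element with g = g m0
  have hex : ∃ m, m ∈ s ∧ g m = g m0 := ⟨m0, hm0, rfl⟩
  set m := Nat.find hex with hm
  obtain ⟨hm1, hm2⟩ := Nat.find_spec hex
  rw [← hm] at hm1 hm2
  have hm1' := hm1
  rw [hs, Finset.mem_filter, Finset.mem_range] at hm1'
  refine ⟨m, ⟨hm1'.2.1, hm1'.2.2, ?_⟩, by omega, ?_⟩
  · intro k hk hko hkn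
    have hks : k ∈ s := by
      rw [hs, Finset.mem_filter, Finset.mem_range]
      exact ⟨by omega, hko, hkn⟩
    have h1 := hmax k hks
    rw [hm2]
    rcases lt_or_eq_of_le h1 with h | h
    · exact h
    · exact absurd ⟨hks, h⟩ (Nat.find_min hex hk)
  · rw [hm2]; exact hmax e hes

/-- lower bound for the surplus of records via odd multiples of `P y` -/
lemma record_S {y n : ℕ} (hy : 4 ≤ H (P y)) (hn : n ∈ B1) (hlt : P y < n) :
    S (P y) ^ 2 * ((n:ℝ) - 2 * P y) ≤ (S n)^2 * n := by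
  obtain ⟨k, hk1, hk2, hk3, hk4, hk5⟩ := exists_mult (P_odd y) hlt
  have hkn := nonDeficient_mult hy hk1 hk5 hk2
  have hg := hn.2.2 k hk3 hk1 hkn
  have hSk : 0 ≤ S k := S_nonneg hkn
  have hSP : 0 ≤ S (P y) := by unfold S; linarith
  have hSPk : S (P y) ≤ S k := by unfold S; linarith [H_mono hk2 hk5.ne']
  have hSn : 0 ≤ S n := S_nonneg hn.2.1
  have h1 : (g k)^2 ≤ (g n)^2 := by
    have : 0 ≤ g k := by unfold g; positivity
    exact pow_le_pow_left₀ this hg.le 2
  unfold g at h1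
  rw [mul_pow, mul_pow, Real.sq_sqrt (by positivity), Real.sq_sqrt (by positivity)] at h1
  refine le_trans ?_ h1
  have h2 : (n:ℝ) - 2 * P y ≤ k := by
    have : (n:ℝ) ≤ k + 2 * P y := by exact_mod_cast hk4
    linarith
  have h3 : S (P y)^2 ≤ (S k)^2 := pow_le_pow_left₀ hSP hSPk 2
  have h4 : S (P y)^2 * ((n:ℝ) - 2 * P y) ≤ S (P y)^2 * k := mul_le_mul_of_nonneg_left h2 (by positivity)
  have h5 : S (P y)^2 * (k:ℝ) ≤ (S k)^2 * k := mul_le_mul_of_nonneg_right h3 (by positivity)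
  linarith

/-- `g` is unbounded on odd non-deficient numbers, so `B1` is infinite. -/
lemma B1_infinite : B1.Infinite := by
  obtain ⟨y, hy⟩ := H_P_unbounded 4
  have hy := hy y le_rfl
  rw [Set.infinite_iff_exists_gt]
  intro N
  by_contra hcon
  push Not at hcon
  -- all records ≤ N, so g bounded by max over records ≤ N
  obtain ⟨M, hM⟩ : ∃ M : ℝ, ∀ m ∈ B1, g m ≤ M := by
    refine ⟨∑ m ∈ Finset.range (N+1), |g m|, fun m hm => ?_⟩
    have hmN := hcon m hm
    calc g m ≤ |g m| := le_abs_self _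
      _ ≤ _ := Finset.single_le_sum (f := fun m => |g m|) (fun i _ => abs_nonneg _)
        (Finset.mem_range.2 (by omega))
  -- large power of 3 multiples
  obtain ⟨t, ht⟩ := exists_nat_gt (M^2)
  set k := P y * (2 * t + 1) with hk
  have hko : Odd k := (P_odd y).mul ⟨t, rfl⟩
  have hk0 : 0 < k := Nat.mul_pos (P_pos y) (by omega)
  have hkn := nonDeficient_mult hy hko hk0 (dvd_mul_right _ _)
  obtain ⟨m, hm, _, hgm⟩ := rec_ge hko hkn
  have h1 : g k ≤ M := hgm.trans (hM m hm)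
  have hSk : 2 ≤ S k := by
    have := H_mono (dvd_mul_right (P y) (2*t+1)) hk0.ne'
    unfold S; rw [hk]; linarith
  have h2 : (g k)^2 = (S k)^2 * k := by
    unfold g; rw [mul_pow, Real.sq_sqrt (by positivity)]
  have hg0 : 0 ≤ g k := by unfold g; positivity
  have h3 : (g k)^2 ≤ M^2 := pow_le_pow_left₀ hg0 h1 2
  have h4 : (t:ℝ) ≤ k := by
    have : t ≤ k := by rw [hk]; nlinarith [P_pos y]
    exact_mod_cast this
  have h5 : (4:ℝ) * k ≤ (S k)^2 * k := by
    apply mul_le_mul_of_nonneg_right _ (by positivity); nlinarith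
  have : (0:ℝ) ≤ t := by positivity
  linarith

lemma b_mem (j : ℕ) : b j ∈ B1 := Nat.nth_mem_of_infinite B1_infinite j

lemma b_strictMono : StrictMono b := Nat.nth_strictMono B1_infinite

end Pool.Agent.X21.Surplus
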