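import Mathlib
import Pool.Agent.Y697.AR.Scal

/-!
# Zeros concentrated on Hecke L-functions of subnormal subfields: all Artin L-functions
-/

set_option autoImplicit false
set_option linter.unusedSectionVars false

namespace Pool.Agent.X21.ArtSub

open Pool.Agent.H302R2 Pool.Agent.H302R5 Pool.Agent.H302R6 Pool.Agent.H302R10
  Pool.Agent.H417R3.HB Pool.Agent.H541R3.ART Pool.Agent.W295.Sp Pool.Agent.W295.Cl Subgroup
  Pool.Agent.W446.AS Pool.Agent.TH820 Pool.Agent.Y697.AR

/-- A chain of normal subgroups with cyclic factors from the trivial subgroup to the whole group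
(for finite groups: the group is supersolvable). -/
def SuperSolv (Q : Type) [Group Q] : Prop :=
  ∃ (k : ℕ) (C : ℕ → Subgroup Q), C 0 = ⊥ ∧ C k = ⊤ ∧ (∀ i, (C i).Normal) ∧
    ∀ i < k, ∃ c : Q, C (i + 1) = C i ⊔ Subgroup.zpowers c

/-- a central extension of a supersolvable group has no frames in its sections -/
theorem free_super {Y Q : Type} [Group Y] [Finite Y] [Group Q] (q : Y →* Q)
    (hc : ∀ x ∈ q.ker, ∀ y : Y, x * y = y * x) (hQ : SuperSolv Q) (lt : Prop) (r : ℕ) :
    Free lt r Y := by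
  rintro H X _ f hf ⟨F, D, hF, -, -⟩
  obtain ⟨k, C, h0, hk, hn, hstep⟩ := hQ
  -- the image of the chain in `X`
  let E : ℕ → Subgroup X := fun i => ((C i).comap (q.comp H.subtype)).map f
  have hEn : ∀ i, (E i).Normal := by
    intro i
    have := hn i
    exact Subgroup.Normal.map (inferInstance : ((C i).comap (q.comp H.subtype)).Normal) f hf
  have hE0 : E 0 ≤ center X := by
    rintro _ ⟨h, hh, rfl⟩
    rw [mem_center_iff]
    intro x
    obtain ⟨y, rfl⟩ := hf x
    have h1 : (h : Y) ∈ q.ker := by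
      have h2 : h ∈ (C 0).comap (q.comp H.subtype) := hh
      rw [h0, mem_comap, mem_bot] at h2
      exact h2
    have h3 := hc _ h1 (y : Y)
    rw [← map_mul, ← map_mul]
    congr 1
    exact Subtype.ext h3.symm
  have hall : ∀ i ≤ k, E i ≤ center X := by
    intro i
    induction i with
    | zero => intro _; exact hE0
    | succ i ih =>
      intro hi
      have h1 := ih (by omega)
      obtain ⟨c, hcc⟩ := hstep i (by omega)
      have hni := hn i
      refine hF.abel (E (i + 1)) (hEn (i + 1)) ?_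
      -- `E (i+1) / E i` is cyclic
      let K : Subgroup H := (C (i + 1)).comap (q.comp H.subtype)
      let ρ : K →* Q ⧸ C i := (QuotientGroup.mk' (C i)).comp ((q.comp H.subtype).comp K.subtype)
      have hρ : ρ.range ≤ zpowers ((QuotientGroup.mk' (C i)) c) := by
        rintro _ ⟨y, rfl⟩
        have hy : q (y : H) ∈ C (i + 1) := y.2
        rw [hcc, Subgroup.mem_sup_of_normal_left] at hy
        obtain ⟨a, ha, b, hb, hab⟩ := hy
        obtain ⟨n, rfl⟩ := mem_zpowers_iff.1 hb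
        refine mem_zpowers_iff.2 ⟨n, ?_⟩
        change _ = (QuotientGroup.mk' (C i)) (q (y : H))
        rw [← hab, map_mul, map_zpow]
        have : (QuotientGroup.mk' (C i)) a = 1 := (QuotientGroup.eq_one_iff a).2 ha
        rw [this, one_mul]
      have hcyc : IsCyclic ρ.range := isCyclic_of_injective (Subgroup.inclusion hρ)
        (Subgroup.inclusion_injective hρ)
      obtain ⟨⟨g, ⟨y0, hy0⟩⟩, hgen⟩ := hcyc.exists_generator
      have key : ∀ x ∈ E (i + 1), ∃ z ∈ center X, ∃ n : ℤ, x = z * f (y0 : H) ^ n := by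
        rintro _ ⟨h, hh, rfl⟩
        obtain ⟨n, hn'⟩ := mem_zpowers_iff.1 (hgen ⟨ρ ⟨h, hh⟩, ⟨⟨h, hh⟩, rfl⟩⟩)
        have hn2 : g ^ n = ρ ⟨h, hh⟩ := by
          have := congrArg Subtype.val hn'
          simpa using this
        refine ⟨f (h * ((y0 : H) ^ n)⁻¹), h1 ⟨h * ((y0 : H) ^ n)⁻¹, ?_, rfl⟩, n, ?_⟩
        · change q ((h * ((y0 : H) ^ n)⁻¹ : H) : Y) ∈ C i
          rw [← QuotientGroup.eq_one_iff]
          have e1 : ρ (⟨h, hh⟩ * (y0 ^ n)⁻¹) = 1 := by
            rw [map_mul, map_inv, map_zpow, hy0, hn2, mul_inv_cancel]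
          exact e1
        · rw [map_mul, map_inv, map_zpow, inv_mul_cancel_right]
      intro a ha b hb
      obtain ⟨z, hz, m, rfl⟩ := key a ha
      obtain ⟨w, hw, n, rfl⟩ := key b hb
      rw [mem_center_iff] at hz hw
      have e1 := hz (w * f (y0 : H) ^ n)
      have e2 := hw (f (y0 : H) ^ m)
      have e3 : f (y0 : H) ^ m * f (y0 : H) ^ n = f (y0 : H) ^ n * f (y0 : H) ^ m := by
        rw [← zpow_add, ← zpow_add, add_comm]
      calc z * f (y0 : H) ^ m * (w * f (y0 : H) ^ n)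
          = z * (f (y0 : H) ^ m * w) * f (y0 : H) ^ n := by group
        _ = z * (w * f (y0 : H) ^ m) * f (y0 : H) ^ n := by rw [e2]
        _ = z * w * (f (y0 : H) ^ m * f (y0 : H) ^ n) := by group
        _ = z * w * (f (y0 : H) ^ n * f (y0 : H) ^ m) := by rw [e3]
        _ = z * (w * f (y0 : H) ^ n) * f (y0 : H) ^ m := by group
        _ = (w * f (y0 : H) ^ n) * z * f (y0 : H) ^ m := by rw [e1]
        _ = _ := by group
  have h4 : (center X : Subgroup X) = ⊤ := by
    rw [eq_top_iff]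
    refine le_trans ?_ (hall k le_rfl)
    intro x _
    obtain ⟨y, rfl⟩ := hf x
    exact ⟨y, by rw [SetLike.mem_coe, hk]; exact mem_top _, rfl⟩
  have h5 := hF.card
  have h6 : F = ⊤ := top_le_iff.1 (h4 ▸ hF.le)
  have h7 := hF.one_lt
  have h8 : (1 : ℕ) < D ^ 2 := by nlinarith
  rw [h6, h4] at h5
  have hfin : Finite X := Finite.of_surjective f hf
  have h9 : 0 < Nat.card (⊤ : Subgroup X) := Nat.card_pos
  nlinarith

variable {G : Type} [Group G] [Finite G] {s₀ : ℂ}

/-- holomorphy if all characters with an order factor through a solvable quotient without frames -/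
theorem artin_quot (lt : Prop) (A : ArtinData G s₀) (hlt : lt → Nonempty (TwoDim A)) {r : ℕ}
    (hr : meromorphicOrderAt (A.Lin ⊥ 1) s₀ = (r : WithTop ℤ)) (N : Subgroup G)
    (hN : ∀ χ ∈ Irr G, (∃ x ∈ N, χ x ≠ χ 1) → meromorphicOrderAt (A.L χ) s₀ = 0)
    {Y : Type} [Group Y] [Group.IsSolvable Y] (π : G →* Y)
    (hπ : Function.Surjective π) (hker : π.ker = N) (hun : Free lt r Y) :
    ∀ χ ∈ Irr G, 0 ≤ meromorphicOrderAt (A.L χ) s₀ := by
  classical
  have : Fintype G := Fintype.ofFinite G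
  have : Finite Y := Finite.of_surjective π hπ
  intro χ hχ
  by_cases h2 : ∃ x ∈ N, χ x ≠ χ 1
  · exact (hN χ hχ h2).ge
  · push Not at h2
    obtain ⟨n, ρ, hρ, rfl⟩ := exists_rep hχ
    have : Fintype π.ker := Fintype.ofFinite _
    have htriv : ∀ g ∈ π.ker, ρ g = 1 := by
      rcases hρ.normal_dich π.ker with h3 | h3
      · exact h3
      · exfalso
        have h4 := h3 1
        have h5 : ∀ x : π.ker, ρ.character (1 * x) = ρ.character 1 := by
          intro x
          rw [one_mul, h2 x (by rw [← hker]; exact x.2)]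
        rw [Finset.sum_congr rfl (fun x _ => h5 x), Finset.sum_const, nsmul_eq_mul,
          Finset.card_univ] at h4
        have h6 : (Fintype.card π.ker : ℂ) ≠ 0 := by
          rw [← Nat.card_eq_fintype_card]
          exact_mod_cast Nat.card_pos.ne'
        rcases mul_eq_zero.mp h4 with h7 | h7
        · exact h6 h7
        · obtain ⟨d, hd, h8⟩ := irr_deg_pos hχ
          rw [h7] at h8
          norm_cast at h8
          omega
    obtain ⟨ψ, hψ, h3⟩ := descend_irr hπ hρ htriv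
    have hθ := A.isHeilbronn
    have h4 := A.theta_one hr
    obtain ⟨k, hk⟩ := fmain lt r _ Y rfl inferInstance hun (Pool.Agent.H302R5.push π (theta A.ord))
      (push_isHeilbronn hπ hθ) (Virt.push hπ (theta_virt _)) (by
        obtain ⟨r', h5, h6⟩ := push_one_nat_le hπ hθ h4
        exact ⟨r', h5, h6⟩) (fun h => (hlt h).elim fun B => B.twoPos.push hπ) ψ hψ
    apply order_nonneg A hχ
    refine ⟨k, ?_⟩
    rw [← hk, pr_push hπ]
    congr 1
    funext g
    exact h3 g

/-- the common linear character -/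
theorem exists_scalar (A : ArtinData G s₀) {r : ℕ}
    (hr : meromorphicOrderAt (A.Lin ⊥ 1) s₀ = (r : WithTop ℤ)) (S : Set (Subgroup G))
    (hS : ∀ H ∈ S, H.IsSubnormal ∧
      ∃ l : H →* ℂˣ, meromorphicOrderAt (A.Lin H l) s₀ = (r : WithTop ℤ))
    (N : Subgroup G) [hNn : N.Normal] (hN : N = normalClosure (⋃ H ∈ S, (H : Set G))) :
    ∃ σ : N →* ℂˣ, (∀ (g : G) (n : N) (h : g * n * g⁻¹ ∈ N), σ ⟨g * n * g⁻¹, h⟩ = σ n) ∧
      ∀ χ ∈ Irr G, meromorphicOrderAt (A.L χ) s₀ ≠ 0 →
        ∀ n : N, χ n = ((σ n : ℂˣ) : ℂ) * χ 1 := by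
  classical
  have hθ := A.isHeilbronn
  have h1 := A.theta_one hr
  rcases Nat.eq_zero_or_pos r with hr0 | hr0
  · refine ⟨1, fun _ _ _ => rfl, fun χ hχ hne => absurd (ord_zero A hχ ?_) hne⟩
    rw [h1, hr0, Nat.cast_zero]
  have hr0' : r ≠ 0 := by omega
  have hne : (theta A.ord : G → ℂ) 1 ≠ 0 := by
    rw [h1]
    exact_mod_cast hr0'
  have hNs : N ≤ scal (theta A.ord : G → ℂ) hθ.conj hne := by
    rw [hN]
    apply normalClosure_le_normal
    intro x hx
    simp only [Set.mem_iUnion] at hx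
    obtain ⟨H, hH, hx⟩ := hx
    obtain ⟨hsub, l, hl⟩ := hS H hH
    exact subnormal_le A hr0' hr hne H hsub l hl hx
  let σ := (sch (theta A.ord : G → ℂ) hθ.conj hne).comp (Subgroup.inclusion hNs)
  have hinv : ∀ (g : G) (n : N) (h : g * n * g⁻¹ ∈ N), σ ⟨g * n * g⁻¹, h⟩ = σ n := by
    intro g n h
    apply Units.ext
    change (theta A.ord : G → ℂ) (g * n * g⁻¹) / (theta A.ord : G → ℂ) 1
      = (theta A.ord : G → ℂ) n / (theta A.ord : G → ℂ) 1
    rw [hθ.conj]
  refine ⟨σ, hinv, fun χ hχ hn n => ?_⟩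
  have hpr : pr (theta A.ord : G → ℂ) χ ≠ 0 := by
    intro h
    apply hn
    have := ord_of_pr A hχ (k := 0) (by rw [h]; simp)
    simpa using this
  exact pr_of_scalar hχ N σ (fun g n => sch_spec ⟨(n : G), hNs n.2⟩ g) hinv hpr n

/-- supersolvable groups are solvable -/
lemma superSolv_solvable {Q : Type} [Group Q] (h : SuperSolv Q) : Group.IsSolvable Q := by
  obtain ⟨k, C, h0, hk, hn, hstep⟩ := h
  have key : ∀ i ≤ k, Group.IsSolvable (C i) := by
    intro i
    induction i with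
    | zero =>
      intro _
      rw [h0]
      infer_instance
    | succ i ih =>
      intro hi
      have h1 := ih (by omega)
      obtain ⟨c, hcc⟩ := hstep i (by omega)
      have hni := hn i
      have hle : C i ≤ C (i + 1) := by rw [hcc]; exact le_sup_left
      let g : C (i + 1) →* Q ⧸ C i := (QuotientGroup.mk' (C i)).comp (C (i + 1)).subtype
      have hg : g.range ≤ zpowers ((QuotientGroup.mk' (C i)) c) := by
        rintro _ ⟨y, rfl⟩
        have hy : (y : Q) ∈ C i ⊔ zpowers c := hcc.le y.2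
        rw [Subgroup.mem_sup_of_normal_left] at hy
        obtain ⟨a, ha, b, hb, hab⟩ := hy
        obtain ⟨n, rfl⟩ := mem_zpowers_iff.1 hb
        refine mem_zpowers_iff.2 ⟨n, ?_⟩
        change _ = (QuotientGroup.mk' (C i)) (y : Q)
        rw [← hab, map_mul, map_zpow]
        have : (QuotientGroup.mk' (C i)) a = 1 := (QuotientGroup.eq_one_iff a).2 ha
        rw [this, one_mul]
      have hcyc : IsCyclic g.range := isCyclic_of_injective (Subgroup.inclusion hg)
        (Subgroup.inclusion_injective hg)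
      have hs : Group.IsSolvable g.range := by
        let _ := hcyc.commGroup
        exact Group.isSolvable_of_comm fun a b => mul_comm a b
      refine Group.isSolvable_of_ker_le_range (Subgroup.inclusion hle) g.rangeRestrict ?_
      intro y hy
      rw [MonoidHom.ker_rangeRestrict, MonoidHom.mem_ker] at hy
      have hy2 : (y : Q) ∈ C i := (QuotientGroup.eq_one_iff (y : Q)).1 hy
      exact ⟨⟨y, hy2⟩, Subtype.ext rfl⟩
  have h1 := key k le_rfl
  rw [hk] at h1
  exact Group.isSolvable_of_surjective (f := (Subgroup.topEquiv (G := Q)).toMonoidHom)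
    (Subgroup.topEquiv (G := Q)).surjective

/-- the quotient `Y = G / ker σ` is a central extension of `G / N` -/
lemma exists_central (N : Subgroup G) [hNn : N.Normal] (σ : N →* ℂˣ)
    (hinv : ∀ (g : G) (n : N) (h : g * n * g⁻¹ ∈ N), σ ⟨g * n * g⁻¹, h⟩ = σ n)
    {Y : Type} [Group Y] (π : G →* Y) (hπ : Function.Surjective π)
    (hker : π.ker = (σ.ker).map N.subtype) :
    ∃ q : Y →* G ⧸ N, ∀ x ∈ q.ker, ∀ y : Y, x * y = y * x := by
  have hle : π.ker ≤ (QuotientGroup.mk' N).ker := by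
    rw [hker, QuotientGroup.ker_mk']
    rintro _ ⟨y, -, rfl⟩
    exact y.2
  refine ⟨π.liftOfSurjective hπ ⟨QuotientGroup.mk' N, hle⟩, ?_⟩
  intro x hx y
  obtain ⟨n, rfl⟩ := hπ x
  obtain ⟨g, rfl⟩ := hπ y
  rw [MonoidHom.mem_ker] at hx
  have h1 := MonoidHom.liftOfRightInverse_comp_apply π (Function.surjInv hπ)
    (Function.rightInverse_surjInv hπ) ⟨QuotientGroup.mk' N, hle⟩ n
  have h2 : (QuotientGroup.mk' N) n = 1 := h1.symm.trans hx
  have hn : n ∈ N := (QuotientGroup.eq_one_iff n).1 h2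
  rw [← map_mul, ← map_mul]
  have h3 : (n * g)⁻¹ * (g * n) ∈ π.ker := by
    rw [hker]
    have h4 : g⁻¹ * n⁻¹ * g⁻¹⁻¹ ∈ N := hNn.conj_mem _ (N.inv_mem hn) g⁻¹
    refine ⟨⟨g⁻¹ * n⁻¹ * g⁻¹⁻¹, h4⟩ * ⟨n, hn⟩, ?_, ?_⟩
    · rw [SetLike.mem_coe, MonoidHom.mem_ker, map_mul]
      have h5 := hinv g⁻¹ ⟨n⁻¹, N.inv_mem hn⟩ h4
      rw [h5]
      have h6 : (⟨n⁻¹, N.inv_mem hn⟩ : N) = (⟨n, hn⟩ : N)⁻¹ := rfl
      rw [h6, map_inv, inv_mul_cancel]
    · simp [mul_assoc]
  rw [MonoidHom.mem_ker, map_mul, map_inv, inv_mul_eq_one] at h3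
  exact h3

/-- **Artin's holomorphy conjecture at zeros concentrated on subnormal subfields.** -/
theorem artin_subnormal (A : ArtinData G s₀) {r : ℕ}
    (hr : meromorphicOrderAt (A.Lin ⊥ 1) s₀ = (r : WithTop ℤ)) (S : Set (Subgroup G))
    (hS : ∀ H ∈ S, H.IsSubnormal ∧
      ∃ l : H →* ℂˣ, meromorphicOrderAt (A.Lin H l) s₀ = (r : WithTop ℤ))
    (N : Subgroup G) [hNn : N.Normal] (hN : N = normalClosure (⋃ H ∈ S, (H : Set G))) :
    ∃ σ : N →* ℂˣ, (∀ (g : G) (n : N) (h : g * n * g⁻¹ ∈ N), σ ⟨g * n * g⁻¹, h⟩ = σ n) ∧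
      (∀ χ ∈ Irr G, meromorphicOrderAt (A.L χ) s₀ ≠ 0 →
        ∀ n : N, χ n = ((σ n : ℂˣ) : ℂ) * χ 1) ∧
      ((∀ χ ∈ Irr G, (∀ n : N, χ n = ((σ n : ℂˣ) : ℂ) * χ 1) → IsMonomialChar χ) →
        ∀ χ ∈ Irr G, 0 ≤ meromorphicOrderAt (A.L χ) s₀) ∧
      (SuperSolv (G ⧸ N) → ∀ χ ∈ Irr G, 0 ≤ meromorphicOrderAt (A.L χ) s₀) ∧
      ∀ (Y : Type) [Group Y] (π : G →* Y), Function.Surjective π →
        π.ker = (σ.ker).map N.subtype → Group.IsSolvable (G ⧸ N) →
        ((∃ χ ∈ Irr G, meromorphicOrderAt (A.L χ) s₀ < 0) →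
          ∃ (H : Subgroup Y) (X : Type) (_ : Group X) (f : H →* X) (F : Subgroup X) (D : ℕ),
            Function.Surjective f ∧ Frame X F D ∧ (Nonempty (TwoDim A) → D ≠ 2) ∧
            (2 * D ≤ r ∨ (D ≤ r ∧ ∃ g : X, F ⊔ Subgroup.zpowers g = ⊤))) ∧
        (((∃ P : ℕ, 3 ≤ P ∧ r ≤ 2 * P - 2 ∧ ∀ q : ℕ, q.Prime → q ∣ Nat.card Y → P ≤ q) ∨
            (r ≤ 12 ∧ (Nat.card Y).Coprime 6) ∨
            (r ≤ 10 ∧ Odd (Nat.card Y) ∧ ¬ 375 ∣ Nat.card Y ∧ ¬ 1215 ∣ Nat.card Y) ∨
            (r ≤ 6 ∧ Nonempty (TwoDim A) ∧ ¬ 108 ∣ Nat.card Y ∧ ¬ 160 ∣ Nat.card Y ∧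
              ¬ 375 ∣ Nat.card Y)) →
          ∀ χ ∈ Irr G, 0 ≤ meromorphicOrderAt (A.L χ) s₀) := by
  classical
  have : Fintype G := Fintype.ofFinite G
  obtain ⟨σ, hinv, hσ⟩ := exists_scalar A hr S hS N hN
  have hKzero : ∀ χ ∈ Irr G, (∃ x ∈ (σ.ker).map N.subtype, χ x ≠ χ 1) →
      meromorphicOrderAt (A.L χ) s₀ = 0 := by
    rintro χ hχ ⟨_, ⟨y, hy, rfl⟩, hx⟩
    by_contra h
    apply hx
    rw [SetLike.mem_coe, MonoidHom.mem_ker] at hy
    have := hσ χ hχ h y
    rw [hy, Units.val_one, one_mul] at this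
    exact this
  refine ⟨σ, hinv, hσ, ?_, ?_, ?_⟩
  · intro hm χ hχ
    by_cases h : meromorphicOrderAt (A.L χ) s₀ = 0
    · exact h.ge
    · obtain ⟨k, hk⟩ := pair_monomial A.isHeilbronn (hm χ hχ (hσ χ hχ h))
      have h3 := A.order_eq hχ (k := (k : ℤ)) (by rw [hk]; push_cast; rfl)
      rw [h3]
      exact_mod_cast Int.natCast_nonneg k
  · intro hsup
    let K : Subgroup G := (σ.ker).map N.subtype
    have hKn : K.Normal := by
      refine ⟨fun x hx g => ?_⟩
      obtain ⟨y, hy, rfl⟩ := hx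
      have hm : g * (y : G) * g⁻¹ ∈ N := hNn.conj_mem _ y.2 g
      refine ⟨⟨g * y * g⁻¹, hm⟩, ?_, rfl⟩
      rw [SetLike.mem_coe, MonoidHom.mem_ker] at hy ⊢
      rw [hinv g y hm, hy]
    have hker : (QuotientGroup.mk' K).ker = (σ.ker).map N.subtype := QuotientGroup.ker_mk' K
    obtain ⟨q, hq⟩ := exists_central N σ hinv (QuotientGroup.mk' K)
      (QuotientGroup.mk'_surjective K) hker
    have hsolN := superSolv_solvable hsup
    have hsol : Group.IsSolvable (G ⧸ K) := by
      have hs : Group.IsSolvable q.ker :=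
        Group.isSolvable_of_comm fun a b => Subtype.ext (hq a a.2 b)
      exact Group.isSolvable_of_ker_le_range q.ker.subtype q (by simp)
    exact artin_quot False A (fun h => h.elim) hr K (hKzero) (QuotientGroup.mk' K)
      (QuotientGroup.mk'_surjective K) hker (free_super q hq hsup False r)
  · intro Y _ π hπ hker hsolN
    have : Finite Y := Finite.of_surjective π hπ
    obtain ⟨q, hq⟩ := exists_central N σ hinv π hπ hker
    have hsol : Group.IsSolvable Y := by
      have hs : Group.IsSolvable q.ker :=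
        Group.isSolvable_of_comm fun a b => Subtype.ext (hq a a.2 b)
      exact Group.isSolvable_of_ker_le_range q.ker.subtype q (by simp)
    have key : ∀ (lt : Prop), (lt → Nonempty (TwoDim A)) → Free lt r Y →
        ∀ χ ∈ Irr G, 0 ≤ meromorphicOrderAt (A.L χ) s₀ := fun lt hlt hun =>
      artin_quot lt A hlt hr _ hKzero π hπ hker hun
    refine ⟨?_, ?_⟩
    · rintro ⟨χ, hχ, hneg⟩
      by_contra hcon
      have hfree : Free (Nonempty (TwoDim A)) r Y := by
        rintro H X _ f hf ⟨F, D, hF, h1, h2⟩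
        exact hcon ⟨H, X, _, f, F, D, hf, hF, h1, h2⟩
      exact (not_lt.mpr (key _ id hfree χ hχ)) hneg
    · intro h
      rcases h with ⟨P, hP, hrP, hq⟩ | ⟨h12, h6⟩ | ⟨h10, hodd, h375, h1215⟩ |
        ⟨h6, hT, h108, h160, h375⟩
      · exact key False (fun h => h.elim) (free_least _ hP hrP hq)
      · exact key False (fun h => h.elim) (free_twelve _ h12 h6)
      · exact key False (fun h => h.elim) (free_ten _ h10 hodd h375 h1215)
      · exact key True (fun _ => hT) ((free_six h108 h160 h375).mono h6)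

end Pool.Agent.X21.ArtSub
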