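import Mathlib
import Pool.Agent.X21.Surplus

set_option autoImplicit false
open Finset

namespace Pool.Agent.X21.Surplus

lemma prod_small (M : Finset ℕ) : ∀ y : ℕ, (∀ p ∈ M, 1 ≤ p ∧ p ≤ y) →
    ∏ p ∈ M, (1 - (p:ℝ)⁻¹) ≤ 1 - (M.card:ℝ) / y := by
  induction M using Finset.induction_on_max with
  | empty => intro y _; simp
  | insert a M ha ih =>
    intro y hy
    have haM : a ∉ M := fun h => lt_irrefl _ (ha a h)
    have ha1 := hy a (Finset.mem_insert_self a M)
    rw [Finset.prod_insert haM, Finset.card_insert_of_notMem haM]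
    have hy0 : (0:ℝ) < y := by
      have : 0 < y := by omega
      exact_mod_cast this
    have hapos : (0:ℝ) < a := by exact_mod_cast ha1.1
    have hay : (a:ℝ) ≤ y := by exact_mod_cast ha1.2
    rcases Nat.eq_or_lt_of_le ha1.1 with h1 | h1
    · -- a = 1
      have hM : M = ∅ := by
        rw [Finset.eq_empty_iff_forall_notMem]
        intro x hx
        have h2 := ha x hx
        have h3 := (hy x (Finset.mem_insert_of_mem hx)).1
        omega
      subst hM
      have h1y : (1:ℝ) ≤ y := by rw [← h1] at hay; simpa using hay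
      rw [← h1]
      simp
      exact inv_le_one_of_one_le₀ h1y
    · have ih' := ih (a - 1) (fun p hp => ⟨(hy p (Finset.mem_insert_of_mem hp)).1, by have := ha p hp; omega⟩)
      have hcast : ((a - 1 : ℕ) : ℝ) = (a:ℝ) - 1 := by rw [Nat.cast_sub ha1.1]; simp
      rw [hcast] at ih'
      have ha1' : (1:ℝ) < a := by exact_mod_cast h1
      have hinv : (0:ℝ) ≤ 1 - (a:ℝ)⁻¹ := by
        have : (a:ℝ)⁻¹ ≤ 1 := inv_le_one_of_one_le₀ ha1'.le
        linarith
      calc (1 - (a:ℝ)⁻¹) * ∏ p ∈ M, (1 - (p:ℝ)⁻¹) ≤ (1 - (a:ℝ)⁻¹) * (1 - (M.card:ℝ) / (a - 1)) :=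
            mul_le_mul_of_nonneg_left ih' hinv
        _ = 1 - ((M.card:ℝ) + 1) / a := by
            have : (a:ℝ) - 1 ≠ 0 := by linarith
            field_simp; ring
        _ ≤ 1 - ((M.card + 1 : ℕ):ℝ) / y := by
            push_cast
            have : ((M.card:ℝ) + 1) / y ≤ ((M.card:ℝ) + 1) / a :=
              div_le_div_of_nonneg_left (by positivity) hapos hay
            linarith

lemma prod_large (Q : Finset ℕ) : ∀ y : ℕ, 1 ≤ y → (∀ q ∈ Q, y < q) →
    ∏ q ∈ Q, ((q:ℝ) / ((q:ℝ) - 1)) ≤ 1 + (Q.card:ℝ) / y := by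
  induction Q using Finset.induction_on_min with
  | empty => intro y _ _; simp
  | insert a Q ha ih =>
    intro y hy hyQ
    have haQ : a ∉ Q := fun h => lt_irrefl _ (ha a h)
    have ha1 := hyQ a (Finset.mem_insert_self a Q)
    rw [Finset.prod_insert haQ, Finset.card_insert_of_notMem haQ]
    have ih' := ih a (by omega) ha
    have hy1 : (1:ℝ) ≤ y := by exact_mod_cast hy
    have hay : (y:ℝ) + 1 ≤ a := by exact_mod_cast ha1
    have hapos : (0:ℝ) < (a:ℝ) - 1 := by linarith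
    have ha0 : (0:ℝ) < a := by linarith
    calc ((a:ℝ) / ((a:ℝ) - 1)) * ∏ q ∈ Q, ((q:ℝ) / ((q:ℝ) - 1))
        ≤ ((a:ℝ) / ((a:ℝ) - 1)) * (1 + (Q.card:ℝ) / a) :=
          mul_le_mul_of_nonneg_left ih' (by positivity)
      _ = 1 + ((Q.card:ℝ) + 1) / (a - 1) := by
          have : (a:ℝ) - 1 ≠ 0 := by linarith
          field_simp; ring
      _ ≤ 1 + ((Q.card + 1 : ℕ):ℝ) / y := by
          push_cast
          have : ((Q.card:ℝ) + 1) / ((a:ℝ) - 1) ≤ ((Q.card:ℝ) + 1) / y :=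
            div_le_div_of_nonneg_left (by positivity) (by linarith) (by linarith)
          linarith

/-- odd primes up to `y` missing from `n` -/
def Mis (y n : ℕ) : Finset ℕ := T y \ n.primeFactors

/-- comparison of `n ≤ P(y) y` with `P(y)` -/
lemma compare {y n : ℕ} (hy : 2 ≤ y) (hn : Odd n) (hle : n ≤ P y * y) :
    H n ≤ H (P y) * ((1 - ((Mis y n).card:ℝ) / y) * (1 + (((Mis y n).card:ℝ) + 1) / y)) ∧
    ∃ t : ℕ, n * (∏ p ∈ Mis y n, p) = P y * t ∧ t ≤ y ^ ((Mis y n).card + 1) ∧ 1 ≤ t := by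
  classical
  have hn0 : n ≠ 0 := by rintro rfl; simp at hn
  have hypos : (0:ℝ) < y := by
    have : 0 < y := by omega
    exact_mod_cast this
  set M := Mis y n with hM
  set A := T y ∩ n.primeFactors with hA
  set Q := n.primeFactors \ T y with hQ
  have hMA : (∏ p ∈ M, p) * (∏ p ∈ A, p) = P y := by
    rw [hM, hA, Mis, P]
    rw [← Finset.prod_sdiff (Finset.inter_subset_left : T y ∩ n.primeFactors ⊆ T y), Finset.sdiff_inter_self_left]
  have hQA : (∏ p ∈ Q, p) * (∏ p ∈ A, p) = ∏ p ∈ n.primeFactors, p := by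
    rw [hQ, hA, Finset.inter_comm]
    rw [← Finset.prod_sdiff (Finset.inter_subset_left : n.primeFactors ∩ T y ⊆ n.primeFactors), Finset.sdiff_inter_self_left]
  have hMAf : (∏ p ∈ M, ((p:ℝ) / ((p:ℝ) - 1))) * (∏ p ∈ A, ((p:ℝ) / ((p:ℝ) - 1))) = H (P y) := by
    rw [hM, hA, Mis, H_P]
    rw [← Finset.prod_sdiff (Finset.inter_subset_left : T y ∩ n.primeFactors ⊆ T y), Finset.sdiff_inter_self_left]
  have hQAf : (∏ p ∈ Q, ((p:ℝ) / ((p:ℝ) - 1))) * (∏ p ∈ A, ((p:ℝ) / ((p:ℝ) - 1))) = H n := by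
    rw [hQ, hA, Finset.inter_comm, H]
    rw [← Finset.prod_sdiff (Finset.inter_subset_left : n.primeFactors ∩ T y ⊆ n.primeFactors), Finset.sdiff_inter_self_left]
  have hMprime : ∀ p ∈ M, p.Prime ∧ p ≤ y := by
    intro p hp
    rw [hM, Mis, Finset.mem_sdiff, mem_T] at hp
    exact ⟨hp.1.2.1, hp.1.1⟩
  have hQy : ∀ q ∈ Q, y < q := by
    intro q hq
    rw [hQ, Finset.mem_sdiff, mem_T] at hq
    by_contra hcon
    apply hq.2
    have hqp := Nat.prime_of_mem_primeFactors hq.1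
    refine ⟨by omega, hqp, ?_⟩
    rintro rfl
    have := Nat.dvd_of_mem_primeFactors hq.1
    exact absurd (even_iff_two_dvd.2 this) (Nat.not_even_iff_odd.2 hn)
  -- rad n ∣ n
  have hrad : (∏ p ∈ n.primeFactors, p) ∣ n := Nat.prod_primeFactors_dvd n
  have hMpos : 0 < ∏ p ∈ M, p := Finset.prod_pos (fun p hp => (hMprime p hp).1.pos)
  have hApos : 0 < ∏ p ∈ A, p := Finset.prod_pos (fun p hp => by
    rw [hA, Finset.mem_inter, mem_T] at hp; exact hp.1.2.1.pos)
  have hMle : ∏ p ∈ M, p ≤ y ^ M.card := by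
    calc ∏ p ∈ M, p ≤ ∏ p ∈ M, y := Finset.prod_le_prod' (fun p hp => (hMprime p hp).2)
      _ = y ^ M.card := by rw [Finset.prod_const]
  -- size of Q
  have hQle : ∏ q ∈ Q, q ≤ (∏ p ∈ M, p) * y := by
    have h1 : ∏ p ∈ n.primeFactors, p ≤ P y * y := (Nat.le_of_dvd (Nat.pos_of_ne_zero hn0) hrad).trans hle
    rw [← hQA, ← hMA] at h1
    have h2 : (∏ q ∈ Q, q) * (∏ p ∈ A, p) ≤ ((∏ p ∈ M, p) * y) * (∏ p ∈ A, p) := by
      calc _ ≤ _ := h1
        _ = _ := by ring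
    exact Nat.le_of_mul_le_mul_right h2 hApos
  have hQge : y ^ Q.card ≤ ∏ q ∈ Q, q := by
    calc y ^ Q.card = ∏ q ∈ Q, y := by rw [Finset.prod_const]
      _ ≤ _ := Finset.prod_le_prod' (fun q hq => (hQy q hq).le)
  have hcard : Q.card ≤ M.card + 1 := by
    have h1 : y ^ Q.card ≤ y ^ (M.card + 1) := by
      calc _ ≤ _ := hQge
        _ ≤ _ := hQle
        _ ≤ y ^ M.card * y := Nat.mul_le_mul_right _ hMle
        _ = _ := by rw [pow_succ]
    exact (Nat.pow_le_pow_iff_right (by omega)).1 h1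
  refine ⟨?_, ?_⟩
  · have h1 := prod_small M y (fun p hp => ⟨(hMprime p hp).1.one_le, (hMprime p hp).2⟩)
    have h2 := prod_large Q y (by omega) hQy
    have h3 : (∏ p ∈ M, ((p:ℝ) / ((p:ℝ) - 1))) * (∏ p ∈ M, (1 - (p:ℝ)⁻¹)) = 1 := by
      rw [← Finset.prod_mul_distrib]
      apply Finset.prod_eq_one
      intro p hp
      have h2 : (2:ℝ) ≤ p := by exact_mod_cast (hMprime p hp).1.two_le
      have h3 : (p:ℝ) - 1 ≠ 0 := by linarith
      field_simp
    have h4 : H n = H (P y) * ((∏ p ∈ M, (1 - (p:ℝ)⁻¹)) * (∏ p ∈ Q, ((p:ℝ) / ((p:ℝ) - 1)))) := by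
      rw [← hQAf, ← hMAf]
      calc (∏ p ∈ Q, ((p:ℝ) / ((p:ℝ) - 1))) * (∏ p ∈ A, ((p:ℝ) / ((p:ℝ) - 1)))
          = ((∏ p ∈ M, ((p:ℝ) / ((p:ℝ) - 1))) * (∏ p ∈ M, (1 - (p:ℝ)⁻¹))) *
            ((∏ p ∈ Q, ((p:ℝ) / ((p:ℝ) - 1))) * (∏ p ∈ A, ((p:ℝ) / ((p:ℝ) - 1)))) := by rw [h3, one_mul]
        _ = _ := by ring
    rw [h4]
    apply mul_le_mul_of_nonneg_left _ (H_pos _).le
    have h5 : (0:ℝ) ≤ ∏ p ∈ Q, ((p:ℝ) / ((p:ℝ) - 1)) := by
      apply Finset.prod_nonneg
      intro q hq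
      have : (y:ℝ) < q := by exact_mod_cast hQy q hq
      have hy2 : (2:ℝ) ≤ y := by exact_mod_cast hy
      apply div_nonneg <;> linarith
    have hMcard : (M.card : ℝ) ≤ y := by
      have : M.card ≤ y := by
        calc M.card ≤ (Finset.Icc 1 y).card := by
              apply Finset.card_le_card
              intro p hp
              rw [Finset.mem_Icc]
              exact ⟨(hMprime p hp).1.one_le, (hMprime p hp).2⟩
          _ = y := by simp
      exact_mod_cast this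
    have h6 : (0:ℝ) ≤ 1 - (M.card:ℝ) / y := by
      have : (M.card:ℝ) / y ≤ 1 := by rw [div_le_one hypos]; exact hMcard
      linarith
    have h7 : ∏ p ∈ Q, ((p:ℝ) / ((p:ℝ) - 1)) ≤ 1 + ((M.card:ℝ) + 1) / y := by
      refine h2.trans ?_
      have : (Q.card:ℝ) ≤ M.card + 1 := by exact_mod_cast hcard
      have : (Q.card:ℝ) / y ≤ ((M.card:ℝ) + 1) / y := div_le_div_of_nonneg_right this hypos.le
      linarith
    exact mul_le_mul h1 h7 h5 h6
  · -- divisibility
    have hdvd : P y ∣ n * (∏ p ∈ M, p) := by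
      rw [← hMA, mul_comm n]
      apply Nat.mul_dvd_mul_left
      refine dvd_trans ?_ hrad
      rw [← hQA]; exact dvd_mul_left _ _
    obtain ⟨t, ht⟩ := hdvd
    refine ⟨t, ht, ?_, ?_⟩
    · have h1 : P y * t ≤ P y * (y * ∏ p ∈ M, p) := by
        rw [← ht]
        calc n * (∏ p ∈ M, p) ≤ (P y * y) * (∏ p ∈ M, p) := Nat.mul_le_mul_right _ hle
          _ = _ := by ring
      have h2 := Nat.le_of_mul_le_mul_left h1 (P_pos y)
      calc t ≤ y * ∏ p ∈ M, p := h2
        _ ≤ y * y ^ M.card := Nat.mul_le_mul_left _ hMle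
        _ = _ := by rw [pow_succ]; ring
    · by_contra hcon
      have : t = 0 := by omega
      rw [this, mul_zero] at ht
      have := Nat.mul_pos (Nat.pos_of_ne_zero hn0) hMpos
      omega

/-- upper bound for the surplus for `n ≤ P(y) y` -/
lemma H_upper {y n : ℕ} (hy : 2 ≤ y) (hn : Odd n) (hle : n ≤ P y * y) :
    H n ≤ H (P y) * (1 + 1 / y) := by
  obtain ⟨h1, _⟩ := compare hy hn hle
  refine h1.trans ?_
  apply mul_le_mul_of_nonneg_left _ (H_pos _).le
  have hypos : (0:ℝ) < y := by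
    have : 0 < y := by omega
    exact_mod_cast this
  set m : ℝ := ((Mis y n).card:ℝ) with hm
  have hm0 : 0 ≤ m := by positivity
  have e : (1 - m / y) * (1 + (m + 1) / y) = 1 + 1/y - m * (m+1) / y^2 := by
    field_simp; ring
  rw [e]
  have : 0 ≤ m * (m+1) / (y:ℝ)^2 := by positivity
  linarith

/-- records near `P(y) y` miss few primes -/
lemma few_missing {y n : ℕ} (hy : 8 ≤ y) (hH : 4 ≤ H (P y)) (hn : n ∈ B1) (hle : n ≤ P y * y)
    (hge : P y * y < 4 * n) : (Mis y n).card ≤ Nat.sqrt (9 * y) := by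
  obtain ⟨h1, _⟩ := compare (by omega) hn.1 hle
  have hypos : (0:ℝ) < y := by
    have : 0 < y := by omega
    exact_mod_cast this
  have hPpos : (0:ℝ) < P y := by exact_mod_cast P_pos y
  have hlt : P y < n := by
    have : P y * 8 ≤ P y * y := Nat.mul_le_mul_left _ hy
    have := P_pos y
    omega
  have h2 := record_S hH hn hlt
  have hgr : (P y:ℝ) * y < 4 * n := by exact_mod_cast hge
  have hn0 : (0:ℝ) < n := by nlinarith
  have hSP : 2 ≤ S (P y) := by unfold S; linarith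
  have hSn := S_nonneg hn.2.1
  -- (n - 2P) ≥ n (1 - 8/y)
  have h3 : (n:ℝ) * (1 - 8 / y) ≤ n - 2 * P y := by
    have : 2 * (P y:ℝ) ≤ n * (8 / y) := by
      rw [mul_div_assoc', le_div_iff₀ hypos]; nlinarith
    linarith
  have h4 : S (P y)^2 * (1 - 8 / y) ≤ (S n)^2 := by
    have : S (P y)^2 * (1 - 8/y) * n ≤ (S n)^2 * n := by
      calc S (P y)^2 * (1 - 8/y) * n = S (P y)^2 * (n * (1 - 8/y)) := by ring
        _ ≤ S (P y)^2 * ((n:ℝ) - 2 * P y) := mul_le_mul_of_nonneg_left h3 (by positivity)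
        _ ≤ _ := h2
    exact le_of_mul_le_mul_right this hn0
  have h8y : 0 < 8 / (y:ℝ) := by positivity
  have h5 : S (P y) * (1 - 8 / y) ≤ S n := by
    by_contra hcon
    push Not at hcon
    have h6 : S n < S (P y) := by nlinarith
    have h7 : (S n)^2 < S (P y)^2 * (1 - 8/y) := by
      by_cases hz : S n = 0
      · rw [hz]
        have : 0 < S (P y) * (1 - 8/y) := by rw [hz] at hcon; exact hcon
        have : 0 < S (P y) * (S (P y) * (1 - 8/y)) := by positivity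
        nlinarith
      · have hpos : 0 < S n := lt_of_le_of_ne hSn (Ne.symm hz)
        nlinarith
    linarith
  have h6 : H (P y) * (1 - 8/y) ≤ H n := by
    have e1 : S (P y) = H (P y) - 2 := rfl
    have e2 : S n = H n - 2 := rfl
    rw [e1, e2] at h5
    nlinarith
  have h7 : H (P y) * (1 - 8/y) ≤ H (P y) * ((1 - ((Mis y n).card:ℝ) / y) * (1 + (((Mis y n).card:ℝ) + 1) / y)) :=
    h6.trans h1
  have h8 := le_of_mul_le_mul_left h7 (H_pos (P y))
  set m : ℝ := ((Mis y n).card:ℝ) with hm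
  have hm0 : 0 ≤ m := by positivity
  have e : (1 - m / y) * (1 + (m + 1) / y) = 1 + 1/y - m * (m+1) / y^2 := by
    field_simp; ring
  rw [e] at h8
  have h9 : m * (m+1) / (y:ℝ)^2 ≤ 9 / y := by
    have : (9:ℝ)/y = 1/y + 8/y := by ring
    rw [this]; linarith
  rw [div_le_div_iff₀ (by positivity) hypos] at h9
  have h10 : m * (m+1) ≤ 9 * y := by
    have : m * (m + 1) * y ≤ (9 * y) * y := by nlinarith
    exact le_of_mul_le_mul_right this hypos
  rw [Nat.le_sqrt]
  have h11 : m * m ≤ 9 * y := by nlinarith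
  rw [hm] at h11
  exact_mod_cast h11

/-- the number of records in `(X/4, X]`, `X = P(y) y`, is small -/
lemma count_records {y : ℕ} (hy : 8 ≤ y) (hH : 4 ≤ H (P y)) (R : Finset ℕ)
    (hR : ∀ n ∈ R, n ∈ B1 ∧ n ≤ P y * y ∧ P y * y < 4 * n) :
    R.card ≤ y ^ (2 * Nat.sqrt (9 * y) + 1) := by
  classical
  set r := Nat.sqrt (9 * y) with hr
  have hchoice : ∀ n ∈ R, ∃ t : ℕ, n * (∏ p ∈ Mis y n, p) = P y * t ∧ t ≤ y ^ (r + 1) ∧ 1 ≤ t := by
    intro n hn
    obtain ⟨h1, h2, h3⟩ := hR n hn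
    obtain ⟨_, t, ht1, ht2, ht3⟩ := compare (by omega) h1.1 h2
    have hf := few_missing hy hH h1 h2 h3
    refine ⟨t, ht1, ht2.trans ?_, ht3⟩
    exact Nat.pow_le_pow_right (by omega) (by omega)
  choose! t ht using hchoice
  have hmaps : ∀ n ∈ R, ((∏ p ∈ Mis y n, p), t n) ∈ (Finset.Icc 1 (y^r)) ×ˢ (Finset.Icc 1 (y^(r+1))) := by
    intro n hn
    obtain ⟨h1, h2, h3⟩ := hR n hn
    have hf := few_missing hy hH h1 h2 h3
    rw [Finset.mem_product, Finset.mem_Icc, Finset.mem_Icc]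
    have hMprime : ∀ p ∈ Mis y n, p.Prime ∧ p ≤ y := by
      intro p hp
      rw [Mis, Finset.mem_sdiff, mem_T] at hp
      exact ⟨hp.1.2.1, hp.1.1⟩
    refine ⟨⟨?_, ?_⟩, (ht n hn).2.2, (ht n hn).2.1⟩
    · exact Finset.prod_pos (fun p hp => (hMprime p hp).1.pos)
    · calc ∏ p ∈ Mis y n, p ≤ ∏ p ∈ Mis y n, y := Finset.prod_le_prod' (fun p hp => (hMprime p hp).2)
        _ = y ^ (Mis y n).card := by rw [Finset.prod_const]
        _ ≤ y ^ r := Nat.pow_le_pow_right (by omega) hf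
  have hinj : Set.InjOn (fun n => ((∏ p ∈ Mis y n, p), t n)) (R : Set ℕ) := by
    intro n hn n' hn' heq
    simp only [Prod.mk.injEq] at heq
    have h1 := (ht n hn).1
    have h2 := (ht n' hn').1
    rw [← heq.1, ← heq.2] at h2
    have h3 : n * (∏ p ∈ Mis y n, p) = n' * (∏ p ∈ Mis y n, p) := by rw [h1, h2]
    have hpos := (Finset.mem_Icc.1 (Finset.mem_product.1 (hmaps n hn)).1).1
    exact Nat.eq_of_mul_eq_mul_right hpos h3
  calc R.card ≤ ((Finset.Icc 1 (y^r)) ×ˢ (Finset.Icc 1 (y^(r+1)))).card :=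
        Finset.card_le_card_of_injOn _ (fun n hn => by exact_mod_cast hmaps n hn) hinj
    _ = y ^ (2 * r + 1) := by
        rw [Finset.card_product, Nat.card_Icc, Nat.card_Icc, Nat.add_sub_cancel, Nat.add_sub_cancel, ← pow_add]
        congr 1; ring

end Pool.Agent.X21.Surplus
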