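import Mathlib

set_option autoImplicit false
open Filter Topology Finset

namespace Pool.Agent.X21.PhiP

/-- sum of the reciprocals of the prime factors of `n` exceeding `y` -/
noncomputable def r (y n : ℕ) : ℝ := ∑ p ∈ n.primeFactors.filter (fun p => y < p), (p:ℝ)⁻¹

/-- truncated totient ratio: product over the primes `p ≤ y` dividing `n` -/
noncomputable def g (y n : ℕ) : ℝ :=
  ∏ p ∈ (range (y+1)).filter (fun p => p.Prime ∧ p ∣ n), (1 - (p:ℝ)⁻¹)

lemma r_nonneg (y n : ℕ) : 0 ≤ r y n := Finset.sum_nonneg (fun p _ => by positivity)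

lemma inv_prime_le_half {p : ℕ} (hp : p.Prime) : (p:ℝ)⁻¹ ≤ 1/2 := by
  have h2 : (2:ℝ) ≤ p := by exact_mod_cast hp.two_le
  rw [one_div]
  exact inv_anti₀ (by norm_num) h2

lemma one_sub_sum_le_prod {ι : Type*} (s : Finset ι) (f : ι → ℝ) (h0 : ∀ i ∈ s, 0 ≤ f i)
    (h1 : ∀ i ∈ s, f i ≤ 1) : 1 - ∑ i ∈ s, f i ≤ ∏ i ∈ s, (1 - f i) := by
  classical
  induction s using Finset.induction_on with
  | empty => simp
  | insert a s ha ih =>
    rw [Finset.sum_insert ha, Finset.prod_insert ha]
    have ih' := ih (fun i hi => h0 i (Finset.mem_insert_of_mem hi))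
      (fun i hi => h1 i (Finset.mem_insert_of_mem hi))
    have ha0 := h0 a (Finset.mem_insert_self a s)
    have ha1 := h1 a (Finset.mem_insert_self a s)
    have hs : 0 ≤ ∑ i ∈ s, f i := Finset.sum_nonneg (fun i hi => h0 i (Finset.mem_insert_of_mem hi))
    have : (1 - f a) * (1 - ∑ i ∈ s, f i) ≤ (1 - f a) * ∏ i ∈ s, (1 - f i) :=
      mul_le_mul_of_nonneg_left ih' (by linarith)
    nlinarith [mul_nonneg ha0 hs]

lemma totient_real (n : ℕ) :
    (n.totient : ℝ) = n * ∏ p ∈ n.primeFactors, (1 - (p : ℝ)⁻¹) := by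
  have h := Nat.totient_eq_mul_prod_factors n
  have h2 := congrArg (Rat.cast : ℚ → ℝ) h
  push_cast at h2
  exact h2

lemma g_eq {y n : ℕ} (hn : n ≠ 0) :
    g y n = ∏ p ∈ n.primeFactors.filter (fun p => ¬ y < p), (1 - (p:ℝ)⁻¹) := by
  unfold g
  apply Finset.prod_congr _ (fun _ _ => rfl)
  ext p
  simp only [Finset.mem_filter, Finset.mem_range, Nat.mem_primeFactors]
  constructor
  · rintro ⟨h1, h2, h3⟩
    exact ⟨⟨h2, h3, hn⟩, by omega⟩
  · rintro ⟨⟨h1, h2, _⟩, h4⟩
    exact ⟨by omega, h1, h2⟩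

lemma g_pos (y n : ℕ) : 0 < g y n := by
  apply Finset.prod_pos
  intro p hp
  simp only [Finset.mem_filter] at hp
  have := inv_prime_le_half hp.2.1
  linarith

lemma g_le_one (y n : ℕ) : g y n ≤ 1 := by
  apply Finset.prod_le_one
  · intro p hp
    simp only [Finset.mem_filter] at hp
    have := inv_prime_le_half hp.2.1
    linarith
  · intro p hp
    have : (0:ℝ) ≤ (p:ℝ)⁻¹ := by positivity
    linarith

lemma totient_le {y n : ℕ} : (n.totient : ℝ) ≤ n * g y n := by
  rcases Nat.eq_zero_or_pos n with h | h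
  · subst h; simp
  rw [totient_real, g_eq h.ne']
  apply mul_le_mul_of_nonneg_left _ (by positivity)
  rw [← Finset.prod_filter_mul_prod_filter_not n.primeFactors (fun p => y < p)]
  have h1 : ∏ p ∈ n.primeFactors.filter (fun p => y < p), (1 - (p:ℝ)⁻¹) ≤ 1 := by
    apply Finset.prod_le_one
    · intro p hp
      simp only [Finset.mem_filter] at hp
      have := inv_prime_le_half (Nat.prime_of_mem_primeFactors hp.1)
      linarith
    · intro p hp
      have : (0:ℝ) ≤ (p:ℝ)⁻¹ := by positivity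
      linarith
  have h2 : 0 ≤ ∏ p ∈ n.primeFactors.filter (fun p => ¬ y < p), (1 - (p:ℝ)⁻¹) := by
    rw [← g_eq h.ne']; exact (g_pos y n).le
  nlinarith

lemma le_totient {y n : ℕ} : n * (g y n * (1 - r y n)) ≤ (n.totient : ℝ) := by
  rcases Nat.eq_zero_or_pos n with h | h
  · subst h; simp
  rw [totient_real]
  apply mul_le_mul_of_nonneg_left _ (by positivity)
  rw [← Finset.prod_filter_mul_prod_filter_not n.primeFactors (fun p => y < p), ← g_eq h.ne',
    mul_comm (g y n)]
  apply mul_le_mul_of_nonneg_right _ (g_pos y n).le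
  apply one_sub_sum_le_prod
  · intro p _; positivity
  · intro p hp
    simp only [Finset.mem_filter] at hp
    have := inv_prime_le_half (Nat.prime_of_mem_primeFactors hp.1)
    linarith

lemma g_mod (y n : ℕ) : g y (n % y.factorial) = g y n := by
  unfold g
  apply Finset.prod_congr _ (fun _ _ => rfl)
  ext p
  simp only [Finset.mem_filter, Finset.mem_range]
  constructor
  · rintro ⟨h1, h2, h3⟩
    refine ⟨h1, h2, ?_⟩
    have hd : p ∣ y.factorial := Nat.dvd_factorial h2.pos (by omega)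
    exact (Nat.dvd_mod_iff hd).1 h3
  · rintro ⟨h1, h2, h3⟩
    refine ⟨h1, h2, ?_⟩
    have hd : p ∣ y.factorial := Nat.dvd_factorial h2.pos (by omega)
    exact (Nat.dvd_mod_iff hd).2 h3

lemma sum_r_le (y Z : ℕ) (hy : y ≠ 0) : ∑ n ∈ Finset.Icc 1 Z, r y n ≤ Z / y := by
  rcases le_or_gt Z y with hZ | hZ
  · -- all zero
    have : ∑ n ∈ Finset.Icc 1 Z, r y n = 0 := by
      apply Finset.sum_eq_zero
      intro n hn
      unfold r
      rw [Finset.filter_eq_empty_iff.2]
      · simp
      · intro p hp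
        have h1 : p ≤ n := Nat.le_of_mem_primeFactors hp
        have h2 := (Finset.mem_Icc.1 hn).2
        omega
    rw [this]; positivity
  have h1 : ∀ n ∈ Finset.Icc 1 Z, r y n ≤ ∑ p ∈ Finset.Ioc y Z, if p ∣ n then (p:ℝ)⁻¹ else 0 := by
    intro n hn
    unfold r
    rw [← Finset.sum_filter]
    apply Finset.sum_le_sum_of_subset_of_nonneg
    · intro p hp
      simp only [Finset.mem_filter, Finset.mem_Ioc] at hp ⊢
      have h1 : p ≤ n := Nat.le_of_mem_primeFactors hp.1
      have h2 := (Finset.mem_Icc.1 hn).2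
      exact ⟨⟨hp.2, by omega⟩, Nat.dvd_of_mem_primeFactors hp.1⟩
    · intro p _ _; positivity
  calc ∑ n ∈ Finset.Icc 1 Z, r y n ≤ ∑ n ∈ Finset.Icc 1 Z, ∑ p ∈ Finset.Ioc y Z, (if p ∣ n then (p:ℝ)⁻¹ else 0) :=
        Finset.sum_le_sum h1
    _ = ∑ p ∈ Finset.Ioc y Z, ∑ n ∈ Finset.Icc 1 Z, (if p ∣ n then (p:ℝ)⁻¹ else 0) := Finset.sum_comm
    _ ≤ ∑ p ∈ Finset.Ioc y Z, (Z:ℝ) * ((p:ℝ)^2)⁻¹ := by
        apply Finset.sum_le_sum
        intro p hp
        have hp0 : 0 < p := by have := (Finset.mem_Ioc.1 hp).1; omega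
        rw [← Finset.sum_filter, Finset.sum_const, nsmul_eq_mul]
        have hc : ((Finset.filter (fun n => p ∣ n) (Finset.Icc 1 Z)).card : ℝ) ≤ Z / p := by
          have : (Finset.filter (fun n => p ∣ n) (Finset.Icc 1 Z)).card = Z / p := by
            have h := Nat.Ioc_filter_dvd_card_eq_div Z p
            have he : Finset.Icc 1 Z = Finset.Ioc 0 Z := by ext x; simp; omega
            rw [he]; exact h
          rw [this]
          exact Nat.cast_div_le
        have hpr : (0:ℝ) < p := by exact_mod_cast hp0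
        calc ((Finset.filter (fun n => p ∣ n) (Finset.Icc 1 Z)).card : ℝ) * (p:ℝ)⁻¹ ≤ (Z / p) * (p:ℝ)⁻¹ :=
              mul_le_mul_of_nonneg_right hc (by positivity)
          _ = (Z:ℝ) * ((p:ℝ)^2)⁻¹ := by field_simp
    _ = Z * ∑ p ∈ Finset.Ioc y Z, ((p:ℝ)^2)⁻¹ := by rw [Finset.mul_sum]
    _ ≤ Z * ((y:ℝ)⁻¹ - (Z:ℝ)⁻¹) := by
        apply mul_le_mul_of_nonneg_left (sum_Ioc_inv_sq_le_sub hy hZ.le) (by positivity)
    _ ≤ Z / y := by
        have : (0:ℝ) ≤ (Z:ℝ)⁻¹ := by positivity
        rw [div_eq_mul_inv]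
        apply mul_le_mul_of_nonneg_left (by linarith) (by positivity)

/-- Markov: few `n ≤ Z` have `r y n > η`. -/
lemma card_r_gt (y Z : ℕ) (hy : y ≠ 0) (η : ℝ) (hη : 0 < η) :
    (((Finset.Icc 1 Z).filter (fun n => η < r y n)).card : ℝ) ≤ Z / (y * η) := by
  have h := sum_r_le y Z hy
  have h1 : ((Finset.Icc 1 Z).filter (fun n => η < r y n)).card * η ≤ ∑ n ∈ Finset.Icc 1 Z, r y n := by
    calc ((Finset.Icc 1 Z).filter (fun n => η < r y n)).card * η
        = ∑ n ∈ (Finset.Icc 1 Z).filter (fun n => η < r y n), η := by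
          rw [Finset.sum_const, nsmul_eq_mul]
      _ ≤ ∑ n ∈ (Finset.Icc 1 Z).filter (fun n => η < r y n), r y n := by
          apply Finset.sum_le_sum
          intro n hn
          exact (Finset.mem_filter.1 hn).2.le
      _ ≤ ∑ n ∈ Finset.Icc 1 Z, r y n := by
          apply Finset.sum_le_sum_of_subset_of_nonneg (Finset.filter_subset _ _)
          intro n _ _; exact r_nonneg y n
  have hy' : (0:ℝ) < y := by exact_mod_cast Nat.pos_of_ne_zero hy
  rw [le_div_iff₀ (by positivity)]
  have h2 := h1.trans h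
  rw [le_div_iff₀ hy'] at h2
  linarith

/-- A finite set of naturals in one residue class mod `M` with diameter at most `L`. -/
lemma card_class (s : Finset ℕ) (M c : ℕ) (hM : 0 < M) (hc : ∀ n ∈ s, n % M = c)
    (L : ℝ) (hL0 : 0 ≤ L) (hL : ∀ a ∈ s, ∀ b ∈ s, (b:ℝ) - a ≤ L) : (s.card:ℝ) ≤ L / M + 1 := by
  have hM' : (0:ℝ) < M := by exact_mod_cast hM
  rcases s.eq_empty_or_nonempty with h | h
  · subst h; simp; positivity
  set a := s.min' h with ha
  set b := s.max' h with hb
  have haM : a ∈ s := s.min'_mem h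
  have hbM : b ∈ s := s.max'_mem h
  have hinj : Set.InjOn (fun n => n / M) (s : Set ℕ) := by
    intro m hm n hn hmn
    simp only at hmn
    have h1 := hc m hm
    have h2 := hc n hn
    rw [← Nat.div_add_mod m M, ← Nat.div_add_mod n M, h1, h2, hmn]
  have himg : s.image (fun n => n / M) ⊆ Finset.Icc (a / M) (b / M) := by
    intro q hq
    obtain ⟨n, hn, rfl⟩ := Finset.mem_image.1 hq
    rw [Finset.mem_Icc]
    exact ⟨Nat.div_le_div_right (s.min'_le n hn), Nat.div_le_div_right (s.le_max' n hn)⟩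
  have hcard : s.card ≤ b / M + 1 - a / M := by
    rw [← Finset.card_image_of_injOn hinj]
    calc _ ≤ (Finset.Icc (a / M) (b / M)).card := Finset.card_le_card himg
      _ = _ := Nat.card_Icc _ _
  have hab : a ≤ b := s.min'_le b hbM
  have hle : a / M ≤ b / M := Nat.div_le_div_right hab
  have hcard' : (s.card : ℝ) ≤ (b / M : ℕ) - (a / M : ℕ) + 1 := by
    have : (s.card : ℝ) ≤ ((b / M + 1 - a / M : ℕ) : ℝ) := by exact_mod_cast hcard
    rw [Nat.cast_sub (by omega)] at this
    push_cast at this ⊢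
    linarith
  have h3 : (b:ℝ) - a = M * (((b / M : ℕ):ℝ) - ((a / M : ℕ):ℝ)) := by
    have e1 : (a:ℝ) = M * ((a / M : ℕ):ℝ) + c := by
      have := Nat.div_add_mod a M
      rw [hc a haM] at this
      exact_mod_cast this.symm
    have e2 : (b:ℝ) = M * ((b / M : ℕ):ℝ) + c := by
      have := Nat.div_add_mod b M
      rw [hc b hbM] at this
      exact_mod_cast this.symm
    rw [e1, e2]; ring
  have h4 := hL a haM b hbM
  rw [h3] at h4
  have h5 : ((b / M : ℕ):ℝ) - ((a / M : ℕ):ℝ) ≤ L / M := by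
    rw [le_div_iff₀ hM']; linarith
  linarith

/-- Main counting lemma. -/
lemma count (k x : ℕ) (hk : 0 < k) (hx : k * (4 * k^2).factorial ≤ x) :
    (Set.ncard {n : ℕ | (x : ℝ) < (n : ℝ) + (Nat.totient n : ℝ) ∧
              (n : ℝ) + (Nat.totient n : ℝ) < (x : ℝ) + x / k} : ℝ) ≤ 4 * (x / k) := by
  have hk' : (1:ℝ) ≤ k := by exact_mod_cast hk
  set y := 4 * k^2 with hy
  have hy0 : y ≠ 0 := by positivity
  set M := y.factorial with hM
  have hMpos : 0 < M := Nat.factorial_pos _
  set η : ℝ := 1 / (2 * k) with hη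
  have hηpos : 0 < η := by positivity
  set B := (Finset.Icc 1 (2*x)).filter (fun n => η < r y n) with hB
  set S : Finset ℕ := (Finset.Icc 1 (2*x)).filter (fun n => r y n ≤ η ∧ (x : ℝ) < (n : ℝ) + (Nat.totient n : ℝ) ∧
              (n : ℝ) + (Nat.totient n : ℝ) < (x : ℝ) + x / k) with hS
  have hxdiv : (x:ℝ) / k ≤ x := div_le_self (by positivity) hk'
  have hsub : {n : ℕ | (x : ℝ) < (n : ℝ) + (Nat.totient n : ℝ) ∧
              (n : ℝ) + (Nat.totient n : ℝ) < (x : ℝ) + x / k} ⊆ ((B ∪ S : Finset ℕ) : Set ℕ) := by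
    intro n hn
    obtain ⟨h1, h2⟩ := hn
    have hn1 : 1 ≤ n := by
      rcases Nat.eq_zero_or_pos n with h | h
      · subst h; simp at h1
        exact absurd h1 (not_lt.2 (by positivity))
      · exact h
    have hn2 : n ≤ 2 * x := by
      have h3 : (0:ℝ) ≤ (n.totient : ℝ) := by positivity
      have : (n:ℝ) < 2 * x := by linarith
      have : n < 2 * x := by exact_mod_cast this
      omega
    simp only [Finset.coe_union, Set.mem_union, Finset.mem_coe]
    by_cases hr : η < r y n
    · left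
      simp only [hB, Finset.mem_filter, Finset.mem_Icc]
      exact ⟨⟨hn1, hn2⟩, hr⟩
    · right
      simp only [hS, Finset.mem_filter, Finset.mem_Icc]
      exact ⟨⟨hn1, hn2⟩, not_lt.1 hr, h1, h2⟩
  have hcard : Set.ncard {n : ℕ | (x : ℝ) < (n : ℝ) + (Nat.totient n : ℝ) ∧
              (n : ℝ) + (Nat.totient n : ℝ) < (x : ℝ) + x / k} ≤ B.card + S.card := by
    calc _ ≤ Set.ncard ((B ∪ S : Finset ℕ) : Set ℕ) := Set.ncard_le_ncard hsub (Finset.finite_toSet _)
      _ = (B ∪ S).card := Set.ncard_coe_finset _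
      _ ≤ _ := Finset.card_union_le _ _
  have hBcard : (B.card : ℝ) ≤ x / k := by
    have h := card_r_gt y (2*x) hy0 η hηpos
    calc (B.card : ℝ) ≤ ((2*x : ℕ) : ℝ) / (y * η) := h
      _ = x / k := by
        rw [hy, hη]; push_cast; field_simp; ring
  have hScard : (S.card : ℝ) ≤ 2 * (x / k) + M := by
    have hfib : S.card = ∑ c ∈ Finset.range M, (S.filter (fun n => n % M = c)).card := by
      apply Finset.card_eq_sum_card_fiberwise
      intro n _
      simp only [Finset.coe_range, Set.mem_Iio]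
      exact Nat.mod_lt _ hMpos
    have hcls : ∀ c ∈ Finset.range M, ((S.filter (fun n => n % M = c)).card : ℝ) ≤ 2 * (x / k) / M + 1 := by
      intro c _
      apply card_class _ M c hMpos
      · intro n hn; exact (Finset.mem_filter.1 hn).2
      · positivity
      · intro a ha b hb
        simp only [hS, Finset.mem_filter, Finset.mem_Icc] at ha hb
        obtain ⟨⟨⟨ha1, ha2⟩, har, hax, hax'⟩, hac⟩ := ha
        obtain ⟨⟨⟨hb1, hb2⟩, hbr, hbx, hbx'⟩, hbc⟩ := hb
        have hgab : g y a = g y b := by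
          rw [← g_mod y a, ← g_mod y b, ← hM, hac, hbc]
        have hga := g_pos y a
        have hga1 := g_le_one y a
        -- lower bound for a
        have hlow : (x:ℝ) < a * (1 + g y a) := by
          have := @totient_le y a
          linarith
        have hup : (b:ℝ) * (1 + g y b) < x + 2 * (x / k) := by
          have h1 := @le_totient y b
          have h2 : (b:ℝ) * (g y b * (1 - r y b)) ≥ b * g y b - b * η := by
            have hgb := g_pos y b
            have hgb1 := g_le_one y b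
            have hrb := r_nonneg y b
            have hb0 : (0:ℝ) ≤ b := by positivity
            have : g y b * r y b ≤ η := by nlinarith
            nlinarith
          have h3 : (b:ℝ) ≤ 2 * x := by exact_mod_cast hb2
          have h4 : (b:ℝ) * η ≤ x / k := by
            rw [hη]
            have : (b:ℝ) * (1 / (2 * k)) = b / 2 / k := by field_simp
            rw [this]
            gcongr
            linarith
          linarith
        rw [← hgab] at hup
        have hpos : 0 < 1 + g y a := by linarith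
        have h5 : ((b:ℝ) - a) * (1 + g y a) < 2 * (x / k) := by nlinarith
        by_contra hcon
        push Not at hcon
        have h6 : 0 ≤ 2 * ((x:ℝ) / k) := by positivity
        nlinarith
    have : (S.card : ℝ) ≤ ∑ c ∈ Finset.range M, (2 * ((x:ℝ) / k) / M + 1) := by
      rw [hfib]
      push_cast
      exact Finset.sum_le_sum hcls
    calc (S.card : ℝ) ≤ ∑ c ∈ Finset.range M, (2 * ((x:ℝ) / k) / M + 1) := this
      _ = 2 * (x / k) + M := by
        rw [Finset.sum_const, Finset.card_range, nsmul_eq_mul]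
        have : (M:ℝ) ≠ 0 := by positivity
        field_simp
  have hMx : (M:ℝ) ≤ x / k := by
    rw [le_div_iff₀ (by linarith)]
    have : M * k ≤ x := by rw [mul_comm]; exact hx
    exact_mod_cast this
  have : (Set.ncard {n : ℕ | (x : ℝ) < (n : ℝ) + (Nat.totient n : ℝ) ∧
              (n : ℝ) + (Nat.totient n : ℝ) < (x : ℝ) + x / k} : ℝ) ≤ B.card + S.card := by
    exact_mod_cast hcard
  linarith

end Pool.Agent.X21.PhiP
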